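import Pool.Agent.Lib_CI.Consist

/-!
MP_a0d45a_lc (stable ordered-union ultrafilters and (p⁺)-filters): the consistency theorem.

For every countable field `K` with more than two elements there is a countable ω-model of ZFC, containing `K` and
the vector space `K^(ω)`, in which there are stable ordered-union ultrafilters but no (p⁺)-filters on `K^(ω)`.
-/

set_option autoImplicit false

namespace Pool.Agent.Results.MP_a0d45a_lc.Consistency

open Pool.Agent.Forcing Pool.Agent.SOUp

theorem result (K : Type) [Field K] [Countable K] (hK : ∃ a : K, a ≠ 0 ∧ a ≠ 1)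
    (d : K ↪ ℕ) (c : (ℕ →₀ K) ≃ ℕ) :
    ∃ E : ℕ → ℕ → Prop, ModelsZFC E ∧ OmegaModel E ∧ SpaceIn E d c ∧
      (∃ u, IsSOUIn E u) ∧ ¬ ∃ f, IsPPlusIn E c f :=
  consistency K hK d c

end Pool.Agent.Results.MP_a0d45a_lc.Consistency
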