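import Pool.Agent.Lib_MP_a0d45a_lc.KillK

/-!
MP_a0d45a_lc: a criterion for the non-existence of full block filters above a given filter.
-/

namespace Pool.Agent.Results.MP_a0d45a_lc.NoExtension

open Pool.Agent.SOU

theorem result (K : Type) [Field K] (F : Filter (ℕ →₀ K))
    (hb : ∀ S ∈ F, ∃ X, Blk X ∧ bs X ∈ F ∧ bs X ⊆ S)
    (hU : ∀ Z : Set (Finset ℕ), (∀ᶠ v in F, v.support ∈ Z) ∨ (∀ᶠ v in F, v.support ∉ Z))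
    (W : Set (ℕ →₀ K)) (h1 : ∀ X, Blk X → bs X ∈ F → (bs X ∩ W).Nonempty)
    (h2 : ∀ X, Blk X → bs X ∈ F → ∃ Z, Blk Z ∧ bs Z ⊆ bs X ∧ bs Z ⊆ Wᶜ) :
    ¬ ∃ G : Filter (ℕ →₀ K), IsFull G ∧ G ≤ F :=
  killK F hb hU W h1 h2

end Pool.Agent.Results.MP_a0d45a_lc.NoExtension
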