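import Pool.Agent.Lib_MP_a0d45a_lc.Main

/-!
MP_a0d45a_lc (stable ordered-union ultrafilters and (p⁺)-filters): the one-step theorem.

For every (p⁺)-filter `F` on `K^(ω)`, `|K| > 2`, there is a forcing notion which is proper and
`ω^ω`-bounding, preserves EVERY stable ordered-union ultrafilter, and adds a set `W` of vectors that
meets every `⟨X⟩ ∈ F` while every `⟨X⟩ ∈ F` contains some `⟨Z⟩` disjoint from `W`.
-/

namespace Pool.Agent.Results.MP_a0d45a_lc.OneStep

open Pool.Agent.SOU

theorem result (K : Type) [Field K] [Countable K] (hK : ∃ a : K, a ≠ 0 ∧ a ≠ 1)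
    (F : Filter (ℕ →₀ K)) (hF : IsPPlus F) :
    ∃ (P : Type) (_ : PartialOrder P), Nonempty P ∧ ProperFF P ∧
      (∀ U : Ultrafilter (Finset ℕ), IsSOU U → PreservesSOU P U) ∧ AddsKiller P F :=
  one_step hK hF

end Pool.Agent.Results.MP_a0d45a_lc.OneStep
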